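import Pool.Agent.Y75.NK.Thm

set_option autoImplicit false

namespace Pool.Agent.Results.MP_28303a_al.ControlledClasses

open Pool.Agent.Y75.NK TH6.PF

/-- **Classes in the negative `K`-groups of a group ring which are controlled over the group.** Let
`R` be a ring, `G` a group and `m ≥ 0`. Every element of Bass's group `K_{-m}(R[G])` is a difference
of two classes of idempotent matrices over `R[ℤᵐ × G]`. If the projective module of such an idempotent
matrix has a presentation matrix which is controlled over `G` by an integral matrix of norm less than
`3/√2` on `ℓ²(G)` then its class is a sum of classes induced from virtually cyclic subgroups of `G`,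
cyclic ones if `G` is torsion-free. Hence it is zero if `G` is torsion-free and `K_{-m}(R[C]) = 0` for
all torsion-free cyclic groups `C`. -/
theorem result (R : Type) [Ring R] (G : GrpCat.{0}) (m : ℕ) :
    (∀ x : (Kneg m).obj ((gr R).obj G), ∃ e f : Idem (MonoidAlgebra R ((EF m).obj G)),
      x = kclass R m G e - kclass R m G f) ∧
    ∀ e : Idem (MonoidAlgebra R ((EF m).obj G)), Controlled (prj m G) e →
      kclass R m G e ∈ vcSub R m G ∧
      (TF G → (∀ C : GrpCat.{0}, IsCyclic C → TF C →
        Subsingleton ((Kneg m).obj ((gr R).obj C))) → kclass R m G e = 0) :=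
  ⟨kclass_generate R m G, fun e h => ⟨mem_vcSub R m G e h, fun hG hR => eq_zero R m G hG hR e h⟩⟩

end Pool.Agent.Results.MP_28303a_al.ControlledClasses
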