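import Mathlib
import Pool.Agent.Y35.NC.Fin

/-!
# The Chern character on the negative K-groups of group rings vanishes

`K_{-j}(R[G])`, `1 ≤ j ≤ r`, is a direct summand (with multiplicity) of `K₀(R[G × ℤ^r])`. Its
pairing with the cyclic cohomology of `R[G]` is the pairing of idempotent matrices over
`R[G × ℤ^r]` with the cyclic cocycles of even degree `2 n ≥ 2` which live in degree zero with respect
to `ℤ^r` and whose restriction to `R[G]` is zero, for example with the products of cocycles of degree
`m` of `R[G]` and the volume cocycle of `ℤ^j`, `m + j = 2 n`. The cocycles are given by cycles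
`(Ω, δ, T)` in the sense of Connes, the pairing is `T (e (δ e) ^ (2 n))`.

We prove for every group `G`: for every ring `R` the number `(2n choose n) T (e (δ e) ^ (2 n))` is
divisible by all natural numbers `N ≥ 1`; if `R` is commutative (for example a regular ring) and the
values of the cycle on group elements lie in a finitely generated module over a finitely generated
subring of `R`, then it is zero. There is no condition on the conjugacy classes which support the
cocycle, as the ones (absence of almost divisible elements) in the known results on `K₀(R[G])`.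
-/

set_option autoImplicit false

namespace Pool.Agent.Results.MP_28303a_al.NegativeChern

/-- `(Ω, δ, T)` is a cycle of dimension `N` with values in the `k`-module `M`: `Ω` is a graded
`k`-algebra with homogeneous components `𝒜 i`, `δ` is a differential of degree one, and `T` is a
closed graded trace which vanishes outside degree `N`. -/
structure IsCycle {k : Type} [CommRing k] {Ω : Type} [Ring Ω] [Algebra k Ω] {M : Type}
    [AddCommGroup M] [Module k M] (N : ℕ) (𝒜 : ℕ → Submodule k Ω) [GradedAlgebra 𝒜]
    (δ : Ω →ₗ[k] Ω) (T : Ω →ₗ[k] M) : Prop where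
  deg : ∀ i, ∀ x ∈ 𝒜 i, δ x ∈ 𝒜 (i + 1)
  sq : ∀ x, δ (δ x) = 0
  leibniz : ∀ i, ∀ x ∈ 𝒜 i, ∀ y, δ (x * y) = δ x * y + (-1) ^ i * (x * δ y)
  closed : ∀ x, T (δ x) = 0
  trace : ∀ i j, ∀ x ∈ 𝒜 i, ∀ y ∈ 𝒜 j, T (x * y) = T ((-1) ^ (i * j) * (y * x))
  dim : ∀ i, i ≠ N → ∀ x ∈ 𝒜 i, T x = 0

/-- The group `G × ℤ^r`; `R[G × ℤ^r]` is the ring of Laurent polynomials in `r` variables over
`R[G]`. -/
abbrev Laurent (G : Type) (r : ℕ) : Type := G × Multiplicative (Fin r → ℤ)

/-- The value `T (c₀ γ₀ δ(c₁ γ₁) ⋯ δ(c_m γ_m))` of the cycle on multiples of group elements. -/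
noncomputable def value {k : Type} [CommRing k] {Ω : Type} [Ring Ω] [Algebra k Ω] {M : Type}
    [AddCommGroup M] [Module k M] (δ : Ω →ₗ[k] Ω) (T : Ω →ₗ[k] M) {R : Type} [Ring R] {Γ : Type}
    [Group Γ] (ρ : MonoidAlgebra R Γ →+* Ω) (a : Γ × R) (l : List (Γ × R)) : M :=
  T (ρ (MonoidAlgebra.single a.1 a.2) *
    (l.map fun b => δ (ρ (MonoidAlgebra.single b.1 b.2))).prod)

/-- The cocycle of degree `m` of the cycle lives in degree zero with respect to `ℤ^r` (it vanishes
unless the product of the group elements lies in `G`), and its restriction to `R[G]` is zero. -/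
structure IsNegative {k : Type} [CommRing k] {Ω : Type} [Ring Ω] [Algebra k Ω] {M : Type}
    [AddCommGroup M] [Module k M] (δ : Ω →ₗ[k] Ω) (T : Ω →ₗ[k] M) {R : Type} [Ring R] {G : Type}
    [Group G] {r : ℕ} (ρ : MonoidAlgebra R (Laurent G r) →+* Ω) (m : ℕ) : Prop where
  degree_zero : ∀ (a : Laurent G r × R) (l : List (Laurent G r × R)), l.length = m →
    (a.1 * (l.map Prod.fst).prod).2 ≠ 1 → value δ T ρ a l = 0
  restriction : ∀ (a : Laurent G r × R) (l : List (Laurent G r × R)), l.length = m →
    a.1.2 = 1 → (∀ b ∈ l, b.1.2 = 1) → value δ T ρ a l = 0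

/-- Let `G` be a group, `(Ω, δ, T)` a cycle of dimension `2 n ≥ 2` over a commutative ring `k`.

(1) If `ρ : R[G × ℤ^r] → Ω` is a homomorphism into degree zero, `R` any ring, and the cocycle is
negative (see `IsNegative`), then `(2n choose n) T (e (δ e) ^ (2 n))` is divisible in `M` by every
`N ≠ 0`, for each idempotent matrix `e` over `R[G × ℤ^r]`.

(2) If moreover `R = k`, `ρ` is `k`-linear, and the values of the cycle on group elements lie in the
module generated by a finite set `F` over the subring generated by a finite set `s`, then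
`(2n choose n) T (e (δ e) ^ (2 n)) = 0`. -/
theorem result (G : Type) [Group G] (r n : ℕ) (hn : 1 ≤ n) (d : Type) [Fintype d] [DecidableEq d]
    (k : Type) [CommRing k] (Ω : Type) [Ring Ω] [Algebra k Ω] (𝒜 : ℕ → Submodule k Ω)
    [GradedAlgebra 𝒜] (M : Type) [AddCommGroup M] [Module k M] (δ : Ω →ₗ[k] Ω) (T : Ω →ₗ[k] M)
    (hT : IsCycle (2 * n) 𝒜 δ T) :
    (∀ (R : Type) [Ring R] (ρ : MonoidAlgebra R (Laurent G r) →+* Ω), (∀ x, ρ x ∈ 𝒜 0) →
      IsNegative δ T ρ (2 * n) →
      ∀ e : Matrix d d (MonoidAlgebra R (Laurent G r)), e * e = e → ∀ N : ℕ, N ≠ 0 →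
        ∃ y : M, ((2 * n).choose n) • T ((e.map ρ) * ((e.map ρ).map δ) ^ (2 * n)).trace =
          N • y) ∧
    (∀ ρ : MonoidAlgebra k (Laurent G r) →ₐ[k] Ω, (∀ x, ρ x ∈ 𝒜 0) →
      IsNegative δ T (ρ : MonoidAlgebra k (Laurent G r) →+* Ω) (2 * n) →
      ∀ (s : Finset k) (F : Finset M), (∀ (a : Laurent G r) (l : List (Laurent G r)),
        l.length = 2 * n → value δ T (ρ : MonoidAlgebra k (Laurent G r) →+* Ω) (a, 1)
          (l.map fun b => (b, 1)) ∈ Submodule.span (Algebra.adjoin ℤ (s : Set k)) (F : Set M)) →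
      ∀ e : Matrix d d (MonoidAlgebra k (Laurent G r)), e * e = e →
        ((2 * n).choose n) • T ((e.map ρ) * ((e.map ρ).map δ) ^ (2 * n)).trace = 0) := by
  have hT' : Pool.Agent.H23R2.Ch.IsCycle (2 * n) 𝒜 δ T :=
    ⟨hT.deg, hT.sq, hT.leibniz, hT.closed, hT.trace, hT.dim⟩
  have htf : ∀ (v : Multiplicative (Fin r → ℤ)) (N : ℕ), N ≠ 0 → v ^ N = 1 → v = 1 := by
    intro v N hN hv
    apply Multiplicative.toAdd.injective
    have h1 := congrArg Multiplicative.toAdd hv
    rw [toAdd_pow, toAdd_one] at h1
    rw [toAdd_one]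
    funext i
    have h2 := congrFun h1 i
    simp only [Pi.smul_apply, nsmul_eq_mul, Pi.zero_apply, mul_eq_zero] at h2
    rcases h2 with h2 | h2
    · exact absurd (by exact_mod_cast h2) hN
    · exact h2
  have hc : Nat.centralBinom n = (2 * n).choose n := rfl
  refine ⟨?_, ?_⟩
  · intro R _ ρ hρ hneg e he N hN
    rw [← hc]
    refine Pool.Agent.Y35.NC.all_rings hn hT' ρ hρ (fun g a l hl hne => ?_) e he N hN
    have h1 : (l.map fun b => δ (ρ (MonoidAlgebra.single (g ^ b.1) b.2))) =
        ((l.map fun b => (g ^ b.1, b.2)).map fun b => δ (ρ (MonoidAlgebra.single b.1 b.2))) := by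
      rw [List.map_map]
      rfl
    rw [h1]
    by_cases hg : g.2 = 1
    · refine hneg.restriction (g ^ a.1, a.2) (l.map fun b => (g ^ b.1, b.2)) (by simpa using hl)
        ?_ ?_
      · show (g ^ a.1).2 = 1
        rw [Prod.pow_snd, hg, one_pow]
      · intro b hb
        obtain ⟨c, _, rfl⟩ := List.mem_map.1 hb
        show (g ^ c.1).2 = 1
        rw [Prod.pow_snd, hg, one_pow]
    · refine hneg.degree_zero (g ^ a.1, a.2) (l.map fun b => (g ^ b.1, b.2)) (by simpa using hl) ?_
      rw [List.map_map]
      have h2 : ∀ l : List (ℕ × R), (l.map (Prod.fst ∘ fun b : ℕ × R => (g ^ b.1, b.2))).prod =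
          g ^ (l.map Prod.fst).sum := by
        intro l
        induction l with
        | nil => simp
        | cons b l ih =>
          rw [List.map_cons, List.prod_cons, ih, List.map_cons, List.sum_cons, pow_add]
          rfl
      rw [h2]
      show (g ^ a.1 * g ^ (l.map Prod.fst).sum).2 ≠ 1
      rw [← pow_add, Prod.pow_snd]
      exact fun h3 => hg (htf _ _ hne h3)
  · intro ρ hρ hneg s F hval e he
    rw [← hc]
    refine Pool.Agent.Y35.NC.comm_rings hn hT' ρ hρ s F (fun a l hl => ?_)
      (fun g a l hl hne => ?_) e he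
    · have h1 := hval a l hl
      unfold value at h1
      rw [List.map_map] at h1
      exact h1
    · have h1 : (l.map fun b => δ (ρ (MonoidAlgebra.single (g ^ b) 1))) =
          ((l.map fun b => (g ^ b, (1 : k))).map fun b =>
            δ ((ρ : MonoidAlgebra k (Laurent G r) →+* Ω) (MonoidAlgebra.single b.1 b.2))) := by
        rw [List.map_map]
        rfl
      rw [h1]
      by_cases hg : g.2 = 1
      · refine hneg.restriction (g ^ a, 1) (l.map fun b => (g ^ b, 1)) (by simpa using hl) ?_ ?_
        · show (g ^ a).2 = 1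
          rw [Prod.pow_snd, hg, one_pow]
        · intro b hb
          obtain ⟨c, _, rfl⟩ := List.mem_map.1 hb
          show (g ^ c).2 = 1
          rw [Prod.pow_snd, hg, one_pow]
      · refine hneg.degree_zero (g ^ a, 1) (l.map fun b => (g ^ b, 1)) (by simpa using hl) ?_
        rw [List.map_map]
        have h2 : ∀ l : List ℕ, (l.map (Prod.fst ∘ fun b : ℕ => (g ^ b, (1 : k)))).prod =
            g ^ l.sum := by
          intro l
          induction l with
          | nil => simp
          | cons b l ih =>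
            rw [List.map_cons, List.prod_cons, ih, List.sum_cons, pow_add]
            rfl
        rw [h2]
        show (g ^ a * g ^ l.sum).2 ≠ 1
        rw [← pow_add, Prod.pow_snd]
        exact fun h3 => hg (htf _ _ hne h3)

end Pool.Agent.Results.MP_28303a_al.NegativeChern
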